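import Pool.Agent.Run7.h74.AE.Iface
import Pool.Agent.Q149.UM.EUL

set_option autoImplicit false

/-!
Project AE (helper74), piece EULI: the smoothed prime sum and the Euler product, imaginary parts
(adapted from `Pool.Agent.Q149.UM.EUL`).
-/

namespace Pool.Agent.Run7.h617.AE

open Pool.Agent.Q97.UM
open Pool.Agent.Q149.UM (zp norm_zp zp_pow norm_zp_sq norm_zp_le norm_zp_cube Z3 Z3_nonneg
  sum_le_Z3 PD mem_PD coef_pow)
open Pool.Agent.Run7.h74.AE
open Complex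

noncomputable section

theorem loc_factor (z : ℂ) (hz : ‖z‖ ≤ 3 / 4) :
    |(-(log (1 - z)).im) - z.im - (z ^ 2).im / 2| ≤ 4 / 3 * ‖z‖ ^ 3 := by
  have h1 := Complex.norm_log_sub_logTaylor_le 2 (z := -z) (by rw [norm_neg]; linarith)
  have h2 : logTaylor (2 + 1) (-z) = -z - z ^ 2 / 2 := by
    simp [logTaylor_succ, logTaylor_zero]
    ring
  rw [h2, norm_neg, ← sub_eq_add_neg] at h1
  have h3 := Complex.abs_im_le_norm (log (1 - z) - (-z - z ^ 2 / 2))
  have h4 : (log (1 - z) - (-z - z ^ 2 / 2)).im =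
      -((-(log (1 - z)).im) - z.im - (z ^ 2).im / 2) := by
    rw [Complex.sub_im, Complex.sub_im, Complex.neg_im]
    have : (z ^ 2 / 2).im = (z ^ 2).im / 2 := by
      rw [show (2 : ℂ) = ((2 : ℝ) : ℂ) by norm_num, Complex.div_ofReal_im]
    rw [this]
    ring
  rw [h4, abs_neg] at h3
  refine h3.trans (h1.trans ?_)
  have h5 : (1 - ‖z‖)⁻¹ ≤ 4 := by
    rw [inv_le_comm₀ (by linarith) (by norm_num)]
    linarith
  have h6 : 0 ≤ ‖z‖ ^ 3 := by positivity
  have h7 : ‖z‖ ^ 3 * (1 - ‖z‖)⁻¹ ≤ ‖z‖ ^ 3 * 4 := mul_le_mul_of_nonneg_left h5 h6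
  norm_num at h7 ⊢
  linarith

theorem EA_approx (D t : ℝ) :
    |EA ⌊Real.exp D⌋₊ t - ∑ p ∈ PD D, ((zp p t).im + (zp p t ^ 2).im / 2)| ≤ 4 / 3 * Z3 := by
  have h1 : EA ⌊Real.exp D⌋₊ t = ∑ p ∈ PD D, (-(log (1 - zp p t)).im) := by
    unfold EA PD zp
    rw [Finset.sum_neg_distrib]
  rw [h1, ← Finset.sum_sub_distrib]
  refine (Finset.abs_sum_le_sum_abs _ _).trans ?_
  refine le_trans ?_ (mul_le_mul_of_nonneg_left (sum_le_Z3 (PD D)) (by norm_num))
  rw [Finset.mul_sum]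
  apply Finset.sum_le_sum
  intro p hp
  have hp' := (mem_PD.1 hp).1
  have h2 := loc_factor (zp p t) (norm_zp_le p t hp'.two_le)
  rw [norm_zp_cube p t hp'.pos] at h2
  rw [show -(log (1 - zp p t)).im - ((zp p t).im + (zp p t ^ 2).im / 2) =
    (-(log (1 - zp p t)).im) - (zp p t).im - (zp p t ^ 2).im / 2 by ring]
  exact h2

theorem PPi_split (ψ₁ : ℝ → ℝ) (D t : ℝ) (hD : 2 ≤ D) (hb : ∀ u, |ψ₁ u| ≤ 1) :
    |PPi ψ₁ D t - ∑ p ∈ PD D, ψ₁ (Real.log p / D) * (zp p t).im -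
      ∑ p ∈ PD (D / 2), ψ₁ (2 * Real.log p / D) * (zp p t ^ 2).im / 2| ≤ 4 * Z3 := by
  set f : ℕ → ℂ := fun n => ((ArithmeticFunction.vonMangoldt n / Real.log n *
    ψ₁ (Real.log n / D) : ℝ) : ℂ) * zp n t with hf
  have h1 : PPi ψ₁ D t = (∑ n ∈ (Finset.Ioc 0 ⌊Real.exp D⌋₊).filter IsPrimePow, f n).im := by
    unfold PPi
    congr 1
    symm
    have hsub : (Finset.Ioc 0 ⌊Real.exp D⌋₊).filter IsPrimePow ⊆ Finset.Icc 2 ⌊Real.exp D⌋₊ := by
      intro n hn
      rw [Finset.mem_filter, Finset.mem_Ioc] at hn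
      rw [Finset.mem_Icc]
      exact ⟨hn.2.two_le, hn.1.2⟩
    refine Finset.sum_subset hsub ?_
    intro n hn hn'
    rw [Finset.mem_filter, Finset.mem_Ioc] at hn'
    rw [Finset.mem_Icc] at hn
    have hnp : ¬ IsPrimePow n := fun h => hn' ⟨⟨by omega, hn.2⟩, h⟩
    have hL : ArithmeticFunction.vonMangoldt n = 0 := by
      rw [ArithmeticFunction.vonMangoldt_eq_zero_iff]
      exact hnp
    simp only [hf, hL, zero_div, zero_mul, Complex.ofReal_zero]
  obtain ⟨N, hN, hN3⟩ : ∃ N : ℕ, ⌊Real.log (Real.exp D) / Real.log 2⌋₊ ≤ N ∧ 3 ≤ N :=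
    ⟨⌊Real.log (Real.exp D) / Real.log 2⌋₊ + 3, by omega, by omega⟩
  have h2 := Chebyshev.sum_PrimePow_eq_sum_sum' f (Real.exp_pos D).le hN
  -- the sets
  have hset : ∀ k : ℕ, 1 ≤ k → (Finset.Ioc 0 ⌊Real.exp D ^ ((1 : ℝ) / k)⌋₊).filter Nat.Prime =
      PD (D / k) := by
    intro k hk
    unfold PD
    have : Real.exp D ^ ((1 : ℝ) / k) = Real.exp (D / k) := by
      rw [← Real.exp_mul]
      congr 1
      ring
    rw [this]
    rfl
  have hfp : ∀ k : ℕ, 1 ≤ k → ∀ p : ℕ, p.Prime →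
      f (p ^ k) = ((1 / k * ψ₁ (k * Real.log p / D) : ℝ) : ℂ) * zp p t ^ k := by
    intro k hk p hp
    simp only [hf]
    rw [coef_pow ψ₁ D p k hp (by omega), zp_pow]
  have h3 : ∑ n ∈ (Finset.Ioc 0 ⌊Real.exp D⌋₊).filter IsPrimePow, f n =
      ∑ k ∈ Finset.Icc 1 N, ∑ p ∈ PD (D / k),
        ((1 / k * ψ₁ (k * Real.log p / D) : ℝ) : ℂ) * zp p t ^ k := by
    rw [h2]
    apply Finset.sum_congr rfl
    intro k hk
    rw [Finset.mem_Icc] at hk
    rw [hset k hk.1]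
    apply Finset.sum_congr rfl
    intro p hp
    exact hfp k hk.1 p (mem_PD.1 hp).1
  set G : ℕ → ℂ := fun k => ∑ p ∈ PD (D / k),
        ((1 / k * ψ₁ (k * Real.log p / D) : ℝ) : ℂ) * zp p t ^ k with hG
  have h4 : ∑ k ∈ Finset.Icc 1 N, G k = G 1 + G 2 + ∑ k ∈ Finset.Icc 3 N, G k := by
    have e1 : Finset.Icc 1 N = insert 1 (insert 2 (Finset.Icc 3 N)) := by
      ext k
      simp only [Finset.mem_Icc, Finset.mem_insert]
      omega
    rw [e1, Finset.sum_insert (by simp), Finset.sum_insert (by simp)]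
    ring
  have hG1 : (G 1).im = ∑ p ∈ PD D, ψ₁ (Real.log p / D) * (zp p t).im := by
    simp only [hG, Nat.cast_one, div_one, one_mul, pow_one]
    rw [Complex.im_sum]
    apply Finset.sum_congr rfl
    intro p _
    rw [Complex.im_ofReal_mul]
  have hG2 : (G 2).im = ∑ p ∈ PD (D / 2), ψ₁ (2 * Real.log p / D) * (zp p t ^ 2).im / 2 := by
    simp only [hG, Nat.cast_ofNat]
    rw [Complex.im_sum]
    apply Finset.sum_congr rfl
    intro p _
    rw [Complex.im_ofReal_mul]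
    ring
  have hG3 : ‖∑ k ∈ Finset.Icc 3 N, G k‖ ≤ 4 * Z3 := by
    have e1 : ∀ k ∈ Finset.Icc 3 N, ‖G k‖ ≤ (3 / 4 : ℝ) ^ (k - 3) * Z3 := by
      intro k hk
      rw [Finset.mem_Icc] at hk
      refine (norm_sum_le _ _).trans ?_
      refine le_trans ?_ (mul_le_mul_of_nonneg_left (sum_le_Z3 (PD (D / k))) (by positivity))
      rw [Finset.mul_sum]
      apply Finset.sum_le_sum
      intro p hp
      have hp' := (mem_PD.1 hp).1
      rw [norm_mul, norm_pow, Complex.norm_real, Real.norm_eq_abs, abs_mul]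
      have c1 : |(1 : ℝ) / k| ≤ 1 := by
        rw [abs_of_nonneg (by positivity), div_le_one (by exact_mod_cast (by omega : 0 < k))]
        exact_mod_cast (by omega : 1 ≤ k)
      have c2 := hb (k * Real.log p / D)
      have c3 : |(1 : ℝ) / k| * |ψ₁ (k * Real.log p / D)| ≤ 1 :=
        mul_le_one₀ c1 (abs_nonneg _) c2
      have c4 : ‖zp p t‖ ^ k = ‖zp p t‖ ^ (k - 3) * ‖zp p t‖ ^ 3 := by
        rw [← pow_add]
        congr 1
        omega
      rw [c4, norm_zp_cube p t hp'.pos]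
      have c5 : ‖zp p t‖ ^ (k - 3) ≤ (3 / 4 : ℝ) ^ (k - 3) :=
        pow_le_pow_left₀ (norm_nonneg _) (norm_zp_le p t hp'.two_le) _
      have c6 : 0 ≤ (p : ℝ) ^ (-(3 / 2) : ℝ) := Real.rpow_nonneg (Nat.cast_nonneg p) _
      have c7 := mul_le_mul_of_nonneg_right c5 c6
      have c8 : 0 ≤ ‖zp p t‖ ^ (k - 3) * (p : ℝ) ^ (-(3 / 2) : ℝ) := by positivity
      calc _ ≤ 1 * (‖zp p t‖ ^ (k - 3) * (p : ℝ) ^ (-(3 / 2) : ℝ)) :=
            mul_le_mul_of_nonneg_right c3 c8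
        _ ≤ _ := by rw [one_mul]; exact c7
    refine (norm_sum_le _ _).trans ((Finset.sum_le_sum e1).trans ?_)
    rw [← Finset.sum_mul]
    refine mul_le_mul_of_nonneg_right ?_ Z3_nonneg
    have e2 : ∑ k ∈ Finset.Icc 3 N, (3 / 4 : ℝ) ^ (k - 3) =
        ∑ j ∈ Finset.range (N - 2), (3 / 4 : ℝ) ^ j := by
      refine Finset.sum_bij' (fun k _ => k - 3) (fun j _ => j + 3) ?_ ?_ ?_ ?_ ?_
      · intro k hk
        rw [Finset.mem_Icc] at hk
        rw [Finset.mem_range]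
        omega
      · intro j hj
        rw [Finset.mem_range] at hj
        rw [Finset.mem_Icc]
        omega
      · intro k hk
        rw [Finset.mem_Icc] at hk
        omega
      · intro j _
        omega
      · intro k _
        rfl
    rw [e2, geom_sum_eq (by norm_num)]
    have e3 : 0 ≤ (3 / 4 : ℝ) ^ (N - 2) := by positivity
    rw [div_le_iff_of_neg (by norm_num)]
    linarith
  rw [h1, h3, h4, Complex.add_im, Complex.add_im, hG1, hG2]
  have h5 := Complex.abs_im_le_norm (∑ k ∈ Finset.Icc 3 N, G k)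
  refine le_trans (le_of_eq ?_) (h5.trans hG3)
  congr 1
  ring

theorem dp_eq_im (ψ₁ : ℝ → ℝ) (D t : ℝ) :
    (dp ⌊Real.exp D⌋₊ (fun n => if n.Prime then ((1 - ψ₁ (Real.log n / D) : ℝ) : ℂ) else 0) t).im =
      ∑ p ∈ PD D, (1 - ψ₁ (Real.log p / D)) * (zp p t).im := by
  unfold dp PD
  rw [Finset.sum_filter, Complex.im_sum]
  apply Finset.sum_congr rfl
  intro n _
  by_cases h : n.Prime
  · simp only [h, if_true]
    rw [Complex.im_ofReal_mul]
    rfl
  · simp only [h, if_false, zero_mul, Complex.zero_im]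

theorem t_EULI : J_EULI := by
  intro hKB ψ₁ k₀ hK
  obtain ⟨-, -, -, ⟨C, hC0, hC⟩, -⟩ := hKB ψ₁ k₀ hK
  obtain ⟨B, hB1, hB⟩ := Pool.Agent.Q178.UM.PR.sum_upto
  refine ⟨4 / 3 * Z3 + 4 * Z3 + C * B + B, by have := Z3_nonneg; positivity, ?_⟩
  intro D t hD
  have hDpos : 0 < D := by linarith
  have h1 := EA_approx D t
  have h2 := PPi_split ψ₁ D t hD hK.bd
  rw [dp_eq_im]
  -- Mertens
  have hmert : ∑ p ∈ PD D, Real.log p / p ≤ B * D := by
    have := hB 1 D (PD D) one_pos hDpos (fun p hp => (mem_PD.1 hp).1)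
    have e : (PD D).filter (fun p : ℕ => 1 * Real.log p ≤ D) = PD D := by
      rw [Finset.filter_eq_self]
      intro p hp
      rw [one_mul]
      exact (mem_PD.1 hp).2
    rw [e] at this
    simpa only [one_mul] using this
  have hsub : PD (D / 2) ⊆ PD D := by
    intro p hp
    rw [mem_PD] at hp ⊢
    exact ⟨hp.1, by linarith [hp.2]⟩
  have hre : ∀ p ∈ PD D, |(zp p t ^ 2).im| ≤ 1 / p := by
    intro p hp
    have e1 := Complex.abs_im_le_norm (zp p t ^ 2)
    rw [norm_pow, norm_zp_sq p t (mem_PD.1 hp).1.pos] at e1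
    exact e1
  have hlog0 : ∀ p ∈ PD D, 0 ≤ Real.log p / p := fun p _ =>
    div_nonneg (Real.log_natCast_nonneg p) (Nat.cast_nonneg p)
  -- the squares
  have h3 : |∑ p ∈ PD (D / 2), (1 - ψ₁ (2 * Real.log p / D)) * (zp p t ^ 2).im / 2| ≤ C * B := by
    have e1 : ∀ p ∈ PD (D / 2), |(1 - ψ₁ (2 * Real.log p / D)) * (zp p t ^ 2).im / 2| ≤
        C / D * (Real.log p / p) := by
      intro p hp
      have q1 := hre p (hsub hp)
      have q2 := hC 0 (2 * Real.log p / D)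
      rw [hK.one, zero_sub, abs_neg] at q2
      have q3 : 0 ≤ Real.log p := Real.log_natCast_nonneg p
      rw [abs_of_nonneg (by positivity : 0 ≤ 2 * Real.log p / D)] at q2
      rw [abs_div, abs_mul, abs_of_pos (by norm_num : (0 : ℝ) < 2)]
      have q4 : |1 - ψ₁ (2 * Real.log p / D)| * |(zp p t ^ 2).im| ≤
          (C * (2 * Real.log p / D)) * (1 / p) :=
        mul_le_mul q2 q1 (abs_nonneg _) (by positivity)
      calc _ ≤ (C * (2 * Real.log p / D)) * (1 / p) / 2 := by linarith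
        _ = C / D * (Real.log p / p) := by ring
    refine (Finset.abs_sum_le_sum_abs _ _).trans ((Finset.sum_le_sum e1).trans ?_)
    rw [← Finset.mul_sum]
    have e2 : ∑ p ∈ PD (D / 2), Real.log p / p ≤ B * D :=
      (Finset.sum_le_sum_of_subset_of_nonneg hsub (fun p hp _ => hlog0 p hp)).trans hmert
    calc C / D * ∑ p ∈ PD (D / 2), Real.log p / p ≤ C / D * (B * D) :=
          mul_le_mul_of_nonneg_left e2 (by positivity)
      _ = C * B := by field_simp
  have h4 : |∑ p ∈ PD D \ PD (D / 2), (zp p t ^ 2).im / 2| ≤ B := by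
    have e1 : ∀ p ∈ PD D \ PD (D / 2), |(zp p t ^ 2).im / 2| ≤ 1 / D * (Real.log p / p) := by
      intro p hp
      rw [Finset.mem_sdiff] at hp
      have q1 := hre p hp.1
      have q2 : D / 2 < Real.log p := by
        by_contra hle
        exact hp.2 (mem_PD.2 ⟨(mem_PD.1 hp.1).1, not_lt.1 hle⟩)
      rw [abs_div, abs_of_pos (by norm_num : (0 : ℝ) < 2)]
      have q3 : (1 : ℝ) / 2 ≤ Real.log p / D := by
        rw [div_le_div_iff₀ (by norm_num) hDpos]
        linarith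
      have hp0 : (0 : ℝ) < p := by exact_mod_cast (mem_PD.1 hp.1).1.pos
      calc |(zp p t ^ 2).im| / 2 ≤ (1 / p) / 2 := by linarith
        _ = (1 / 2) * (1 / p) := by ring
        _ ≤ (Real.log p / D) * (1 / p) := mul_le_mul_of_nonneg_right q3 (by positivity)
        _ = 1 / D * (Real.log p / p) := by ring
    refine (Finset.abs_sum_le_sum_abs _ _).trans ((Finset.sum_le_sum e1).trans ?_)
    rw [← Finset.mul_sum]
    have e2 : ∑ p ∈ PD D \ PD (D / 2), Real.log p / p ≤ B * D :=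
      (Finset.sum_le_sum_of_subset_of_nonneg Finset.sdiff_subset
        (fun p hp _ => hlog0 p hp)).trans hmert
    calc 1 / D * ∑ p ∈ PD D \ PD (D / 2), Real.log p / p ≤ 1 / D * (B * D) :=
          mul_le_mul_of_nonneg_left e2 (by positivity)
      _ = B := by field_simp
  -- the algebra
  have hs1 : ∑ p ∈ PD D, ((zp p t).im + (zp p t ^ 2).im / 2) =
      ∑ p ∈ PD D, ψ₁ (Real.log p / D) * (zp p t).im +
        ∑ p ∈ PD D, (1 - ψ₁ (Real.log p / D)) * (zp p t).im +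
        (∑ p ∈ PD D \ PD (D / 2), (zp p t ^ 2).im / 2 +
          (∑ p ∈ PD (D / 2), ψ₁ (2 * Real.log p / D) * (zp p t ^ 2).im / 2 +
          ∑ p ∈ PD (D / 2), (1 - ψ₁ (2 * Real.log p / D)) * (zp p t ^ 2).im / 2)) := by
    have e0 : ∑ p ∈ PD D, ψ₁ (Real.log p / D) * (zp p t).im +
        ∑ p ∈ PD D, (1 - ψ₁ (Real.log p / D)) * (zp p t).im = ∑ p ∈ PD D, (zp p t).im := by
      rw [← Finset.sum_add_distrib]
      apply Finset.sum_congr rfl
      intro p _
      ring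
    have e1 : ∑ p ∈ PD (D / 2), ψ₁ (2 * Real.log p / D) * (zp p t ^ 2).im / 2 +
        ∑ p ∈ PD (D / 2), (1 - ψ₁ (2 * Real.log p / D)) * (zp p t ^ 2).im / 2 =
        ∑ p ∈ PD (D / 2), (zp p t ^ 2).im / 2 := by
      rw [← Finset.sum_add_distrib]
      apply Finset.sum_congr rfl
      intro p _
      ring
    rw [e0, e1, Finset.sum_sdiff hsub, Finset.sum_add_distrib]
  rw [hs1] at h1
  rw [abs_le] at h1 h2 h3 h4 ⊢
  constructor <;> linarith [h1.1, h1.2, h2.1, h2.2, h3.1, h3.2, h4.1, h4.2]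

end

end Pool.Agent.Run7.h617.AE
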